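import Pool.Agent.N145.SX.MFin
import Pool.Agent.R882.UA
import Pool.Agent.R882.UC

/-!
Restrictions of the pluricanonical forms of the base (or of the generic fibre) of a fibration to
curves of genus at most one. The first part is `Pool.Agent.N281.SX.REGFa` and
`Pool.Agent.N145.SX.PullK` over an arbitrary field of characteristic zero.
-/

set_option autoImplicit false
set_option linter.overlappingInstances false
set_option linter.unusedSectionVars false
set_option linter.unusedVariables false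
set_option maxHeartbeats 4000000
set_option synthInstance.maxHeartbeats 400000

open FF IntermediateField Module

namespace Pool.Agent.L0h18.EF

open Pool.Agent.W603.LV Pool.Agent.W619.PQ Pool.Agent.N145.SX
open Pool.Agent.W602.GT (Divisorial RegAt IsPluri DerReg KodGe)

section

variable {k Λ Ξ : Type} [Field k] [Field Λ] [Field Ξ] [Algebra k Λ]
    [Algebra k Ξ] [Algebra Λ Ξ] [IsScalarTower k Λ Ξ]

/-- a place as a place over `k` -/
def rcP (Q : Place Λ Ξ) : Place k Ξ where
  ord := Q.ord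
  ord_zero := Q.ord_zero
  ord_mul := Q.ord_mul
  ord_add := Q.ord_add
  ord_const := by
    intro c hc
    rw [IsScalarTower.algebraMap_apply k Λ Ξ]
    exact Q.ord_const (by simpa using hc)
  surj := Q.surj

/-- it is divisorial -/
theorem rcP_div {N : ℕ} (hN : Algebra.trdeg k Λ = N) (Q : Place Λ Ξ) :
    Divisorial (N + 1) (rcP (k := k) Q) := by
  obtain ⟨b, hb⟩ := Pool.Agent.W602.GT.basis_of_trdeg hN
  refine ⟨fun i : Fin N => algebraMap Λ Ξ (b i), ?_⟩
  intro F hF
  have h1 : MvPolynomial.aeval (fun i : Fin N => algebraMap Λ Ξ (b i)) F =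
      algebraMap Λ Ξ (MvPolynomial.aeval b F) :=
    MvPolynomial.aeval_algebraMap_apply Ξ b F
  have h2 : MvPolynomial.aeval b F ≠ 0 := by
    intro h
    exact hF ((algebraicIndependent_iff.1 hb.1) F h)
  constructor
  · intro h
    apply h2
    have h3 : algebraMap Λ Ξ (MvPolynomial.aeval b F) = 0 := h1.symm.trans h
    exact (map_eq_zero (algebraMap Λ Ξ)).1 h3
  · have h3 : Q.ord (algebraMap Λ Ξ (MvPolynomial.aeval b F)) = 0 := Q.ord_const h2
    rw [← h1] at h3
    exact h3

/-- the normalised derivations -/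
noncomputable def dl {m : ℕ} (δ : Fin m → Derivation k Ξ Ξ) (i0 : Fin m) (τ a : Ξ) (i : Fin m) :
    Derivation k Ξ Ξ :=
  if i = i0 then a⁻¹ • δ i0 else δ i - (δ i τ / a) • δ i0

theorem dl_same {m : ℕ} (δ : Fin m → Derivation k Ξ Ξ) (i0 : Fin m) (τ a : Ξ) (z : Ξ) :
    dl δ i0 τ a i0 z = a⁻¹ * δ i0 z := by
  unfold dl
  rw [if_pos rfl]
  simp

theorem dl_ne {m : ℕ} (δ : Fin m → Derivation k Ξ Ξ) (i0 : Fin m) (τ a : Ξ) {i : Fin m}
    (h : i ≠ i0) (z : Ξ) : dl δ i0 τ a i z = δ i z - δ i τ / a * δ i0 z := by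
  unfold dl
  rw [if_neg h]
  simp

theorem det_eq {m : ℕ} (δ : Fin m → Derivation k Ξ Ξ) (i0 : Fin m) (τ : Ξ) {a : Ξ} (ha : a ≠ 0)
    (y : Fin m → Ξ) : (Matrix.of fun i j => δ i (y j) : Matrix (Fin m) (Fin m) Ξ).det =
      a * (Matrix.of fun i j => dl δ i0 τ a i (y j) : Matrix (Fin m) (Fin m) Ξ).det := by
  classical
  obtain ⟨M', hM'⟩ : ∃ M' : Matrix (Fin m) (Fin m) Ξ, M' = Matrix.of fun i j =>
    dl δ i0 τ a i (y j) := ⟨_, rfl⟩
  rw [← hM']
  have h1 : (M'.updateRow i0 (a • M' i0)).det = a * M'.det := by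
    rw [Matrix.det_updateRow_smul, Matrix.updateRow_eq_self]
  rw [← h1]
  refine Matrix.det_eq_of_forall_row_eq_smul_add_const
    (fun i => if i = i0 then 0 else δ i τ / a) i0 (if_pos rfl) ?_
  intro i j
  by_cases hi : i = i0
  · subst hi
    rw [if_pos rfl, zero_mul, add_zero, Matrix.updateRow_self, hM']
    simp only [Matrix.of_apply, Pi.smul_apply, smul_eq_mul]
    rw [dl_same]
    field_simp
  · rw [if_neg hi, Matrix.updateRow_self, Matrix.updateRow_ne hi, hM']
    simp only [Matrix.of_apply, Pi.smul_apply, smul_eq_mul]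
    rw [dl_same, dl_ne _ _ _ _ hi]
    field_simp
    ring

end

/-- **Pull-backs of regular pluricanonical forms are regular.** -/
theorem pull_pluri {k K R : Type} [Field k] [CharZero k] [Field K] [Field R] [Algebra k K]
    [Algebra k R] [Algebra K R]
    [IsScalarTower k K R] [Algebra.EssFiniteType k K] {n N w : ℕ} (hn : Algebra.trdeg k K = n)
    (hN : Algebra.trdeg k R = N) {z : Fin n → K} (hz : IsTranscendenceBasis k z)
    {E : Fin n → Derivation k K K} (hE : ∀ i j, E i (z j) = if i = j then 1 else 0)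
    {ω : (Fin n → Derivation k K K) → K} (hω : IsPluri w ω)
    (hreg : ∀ P : Place k K, Divisorial n P → RegAt P ω) (Q : Place k R) (hQ : Divisorial N Q)
    {D : Fin n → Derivation k R R} (hD : ∀ i, DerReg Q (D i)) :
    Q.Reg ((Matrix.of fun i j => D i (algebraMap K R (z j)) : Matrix (Fin n) (Fin n) R).det ^ w *
      algebraMap K R (ω E)) := by
  classical
  by_cases htriv : ∃ f : K, Q.ord (algebraMap K R f) ≠ 0
  · obtain ⟨e, P, hP⟩ := exists_over Q htriv
    have hPd : Divisorial n P := Pool.Agent.W619.Y.pDIVR k K R n N P Q e hn hN hP hQ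
    obtain ⟨yP, EP, i0, hbas, hdual, -, hyreg, hpres⟩ :=
      Pool.Agent.W240.PG.Frame.main.{0, 0} Pool.Agent.W762.PG.main k K n hn
        (fun y hy => Pool.Agent.Y297.NT.fd_basis hy) P hPd
    have h1 := Pool.Agent.W73.PG.PULL.form_eq (L := R) z yP hz hbas E EP hE hdual
      (m := w) ω hω D
    rw [h1]
    refine Q.reg_mul ?_ ?_
    · have h9 : Ge Q 0 (Matrix.of fun a c => D a (algebraMap K R (yP c)) :
          Matrix (Fin n) (Fin n) R).det :=
        Pool.Agent.W619.PQ.ge_det Q _ fun a b => hD a _ (hP.reg.2 (hyreg b))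
      have h10 := h9.pow w
      rw [mul_zero] at h10
      exact h10
    · exact hP.reg.2 (hreg P hPd EP hpres)
  · push Not at htriv
    have h0 : ∀ f : K, Q.Reg (algebraMap K R f) := fun f => Or.inr (htriv f).ge
    refine Q.reg_mul ?_ (h0 _)
    have h9 : Ge Q 0 (Matrix.of fun i j => D i (algebraMap K R (z j)) :
        Matrix (Fin n) (Fin n) R).det :=
      Pool.Agent.W619.PQ.ge_det Q _ fun a b => hD a _ (h0 _)
    have h10 := h9.pow w
    rw [mul_zero] at h10
    exact h10

/-- **Restriction of pluricanonical forms to the fibres.** -/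
theorem core_pluri {k E Λ Ξ : Type} [Field k] [CharZero k] [Field E] [Field Λ] [Field Ξ]
    [Algebra k E] [Algebra k Λ]
    [Algebra k Ξ] [Algebra Λ Ξ] [Algebra E Ξ] [IsScalarTower k Λ Ξ] [IsScalarTower k E Ξ]
    [Algebra.EssFiniteType k E] [IsAlgClosed Λ] [IsFF Λ Ξ] {m N w : ℕ} (hm : Algebra.trdeg k E = m)
    (hN : Algebra.trdeg k Λ = N) {x : Fin m → E} (hx : IsTranscendenceBasis k x)
    {D0 : Fin m → Derivation k E E} (hdual : ∀ i j, D0 i (x j) = if i = j then 1 else 0)
    {ω : (Fin m → Derivation k E E) → E} (hpl : IsPluri w ω)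
    (hreg : ∀ P : Place k E, Divisorial m P → RegAt P ω)
    (Ds : Derivation Λ Ξ Ξ) {s : Ξ} (hs : Ds s = 1)
    (δ : Fin m → Derivation k Ξ Ξ) (i0 : Fin m) (hi0 : ∀ z, δ i0 z = Ds z)
    (hδ : ∀ i (c : Λ), ∃ c' : Λ, δ i (algebraMap Λ Ξ c) = algebraMap Λ Ξ c')
    (Q : Place Λ Ξ) : Ge Q (w * vo Q Ds)
      ((Matrix.of fun i j => δ i (algebraMap E Ξ (x j)) : Matrix (Fin m) (Fin m) Ξ).det ^ w *
        algebraMap E Ξ (ω D0)) := by
  have hch : CharZero Λ := charZero_of_injective_algebraMap (algebraMap k Λ).injective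
  have hess : Algebra.EssFiniteType Λ Ξ := IsFF.ess
  have hD0 : Ds ≠ 0 := by
    rintro rfl
    simp at hs
  obtain ⟨τ, hτ⟩ : ∃ τ, τ = unif Q := ⟨_, rfl⟩
  have hτ1 : Q.ord τ = 1 := by rw [hτ]; exact ord_unif Q
  obtain ⟨a, ha⟩ : ∃ a, a = Ds τ := ⟨_, rfl⟩
  have ha0 : a ≠ 0 := by rw [ha]; exact der_pi_ne_zero hD0 Q hτ1
  have hvo : vo Q Ds = Q.ord a := by rw [ha, hτ]; rfl
  -- regularity of the normalised derivations
  have hdr : ∀ i, DerReg (rcP (k := k) Q) (dl δ i0 τ a i) := by
    intro i g hg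
    have h1 : Q.Reg g := hg
    have h2 := Pool.Agent.N131.MV.der_regular (P := Q) (m := 0) (s := (Fin.elim0 : Fin 0 → Ξ))
      (δ := dl δ i0 τ a i) (by rw [IsFF.trdeg (k := Λ) (K := Ξ)]; simp)
      (by
        intro G hG
        rw [MvPolynomial.eq_C_of_isEmpty G] at hG ⊢
        have hc : MvPolynomial.coeff 0 G ≠ 0 := by
          intro h
          rw [h, map_zero] at hG
          exact hG rfl
        rw [MvPolynomial.aeval_C]
        exact ⟨by simpa using hc, Q.ord_const hc⟩)
      (by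
        intro c
        by_cases hi : i = i0
        · subst hi
          rw [dl_same, hi0, Derivation.map_algebraMap, mul_zero]
          exact Q.reg_zero
        · rw [dl_ne _ _ _ _ hi, hi0, Derivation.map_algebraMap, mul_zero, sub_zero]
          obtain ⟨c', hc'⟩ := hδ i c
          rw [hc']
          exact Q.reg_const c')
      (fun i => i.elim0) hτ1
      (by
        by_cases hi : i = i0
        · subst hi
          rw [dl_same, hi0, ← ha, inv_mul_cancel₀ ha0]
          exact Q.reg_one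
        · rw [dl_ne _ _ _ _ hi, hi0, ← ha, div_mul_cancel₀ _ ha0, sub_self]
          exact Q.reg_zero) g h1
    exact h2
  -- transcendence degree
  have htr : Algebra.trdeg k Ξ = ((N + 1 : ℕ) : Cardinal) := by
    have h1 := trdeg_add_eq k Λ (A := Ξ)
    rw [hN, IsFF.trdeg (k := Λ) (K := Ξ)] at h1
    rw [← h1]
    push_cast
    rfl
  have hP := pull_pluri hm htr hx hdual hpl hreg (rcP Q) (rcP_div hN Q) hdr
  rw [det_eq δ i0 τ ha0, mul_pow, mul_assoc, hvo]
  have h1 : Ge Q (w * Q.ord a) (a ^ w) := by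
    have h3 : Ge Q (Q.ord a) a := Or.inr le_rfl
    exact h3.pow w
  have h2 : Ge Q 0 ((Matrix.of fun i j => dl δ i0 τ a i (algebraMap E Ξ (x j)) :
    Matrix (Fin m) (Fin m) Ξ).det ^ w * algebraMap E Ξ (ω D0)) := hP
  have h3 := Ge.mul h1 h2
  rwa [add_zero] at h3

end Pool.Agent.L0h18.EF
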