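import Pool.Agent.L0h18.EF.Fib
import Pool.Agent.N162.GQ.Facts
import Pool.Agent.N162.GQ.Dich4

/-!
Iitaka's inequality for the varieties dominated by the product of several varieties and a curve.
-/

set_option autoImplicit false
set_option linter.overlappingInstances false
set_option linter.unusedSectionVars false
set_option linter.unusedVariables false
set_option maxHeartbeats 4000000
set_option synthInstance.maxHeartbeats 400000

open FF IntermediateField Module

namespace Pool.Agent.L0h18.EF

open Pool.Agent.W603.LV Pool.Agent.W619.PQ Pool.Agent.N145.SX Pool.Agent.N145.PC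
open Pool.Agent.W602.GT (Divisorial RegAt IsPluri DerReg KodGe Psef GeneralType)
open Pool.Agent.N162.GQ (Factor sep_factor fGON)
open Pool.Agent.R882.HTF (KappaGe IsPseudoEffective)

/-- **The canonical forms separate `r` general points.** `E` is the function field of a variety `X` of
dimension `m`, and `D` a rational frame of the tangent bundle. The embeddings `σ : E → Ω` are the
generic points of `X` with coordinates in the field `Ω`. At most `r` different such points impose
independent conditions on the canonical forms `ω` which are regular at all prime divisors: if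
`∑ c σ * σ (ω D) = 0` for all `ω` then all the coefficients `c σ` are zero. -/
def SeparatesPoints (E : Type) [Field E] [Algebra ℂ E] (m r : ℕ) : Prop :=
  ∀ D : Fin m → Derivation ℂ E E, LinearIndependent E D →
    ∀ (Ω : Type) [Field Ω] [Algebra ℂ Ω] [IsAlgClosed Ω] (A : Finset (E →ₐ[ℂ] Ω)), A.card ≤ r →
    ∀ c : (E →ₐ[ℂ] Ω) → Ω,
    (∀ ω : (Fin m → Derivation ℂ E E) → E, IsPluri 1 ω →
      (∀ P : Place ℂ E, Divisorial m P → RegAt P ω) → ∑ σ ∈ A, c σ * σ (ω D) = 0) →
    ∀ σ ∈ A, c σ = 0

/-- complete intersections and curves of large gonality -/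
theorem separates_of_factor {E : Type} [Field E] [Algebra ℂ E] {n g r : ℕ} (h : Factor E n g)
    (hr : r < g) : SeparatesPoints E n r := by
  intro D hD Ω _ _ _ A hA c hc
  obtain ⟨z, e, hz, he⟩ := Pool.Agent.Y172.exists_crd (Pool.Agent.N162.GQ.dim_factor h)
  have hsep := sep_factor fGON h (fun _ => False) z hz
  obtain ⟨δ, hδ⟩ : ∃ δ : E, δ = (Matrix.of fun i j => D i (z j) : Matrix (Fin n) (Fin n) E).det :=
    ⟨_, rfl⟩
  have hδ0 : δ ≠ 0 := by
    intro h0
    obtain ⟨v, hv0, hv⟩ := Matrix.exists_vecMul_eq_zero_iff.2 (hδ.symm.trans h0)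
    apply hv0
    have h1 : (∑ i, v i • D i : Derivation ℂ E E) = 0 := by
      refine Pool.Agent.Y888.NT.der_ext' z hz fun j => ?_
      have h3 : (∑ i, v i • D i : Derivation ℂ E E) (z j) = ∑ i, (v i • D i) (z j) :=
        congrFun (map_sum Derivation.coeFnAddMonoidHom (fun i => v i • D i) Finset.univ
          |>.trans rfl) (z j) |>.trans (Finset.sum_apply _ _ _)
      rw [h3]
      have h4 := congrFun hv j
      exact h4
    funext i
    exact (Fintype.linearIndependent_iff.1 hD) v h1 i
  have key := hsep Ω A (by omega) (fun σ => c σ * σ δ) (fun f hf => by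
    have h1 := hc (Pool.Agent.Y184.NT.trForm z f) (Pool.Agent.Y184.NT.trForm_pluri z f)
      (fun P hP => (hf P hP).2 id)
    have h2 : Pool.Agent.Y184.NT.trForm z f D = δ * f := by
      rw [hδ]
      rfl
    rw [h2] at h1
    rw [← h1]
    refine Finset.sum_congr rfl fun σ _ => ?_
    rw [map_mul]
    ring)
  intro σ hσ
  have h1 := key σ hσ
  rcases mul_eq_zero.1 h1 with h2 | h2
  · exact h2
  · exact absurd ((map_eq_zero σ).1 h2) hδ0

section

variable {K : Type} [Field K] [Algebra ℂ K] {k : ℕ}

/-- **Iitaka's inequality for the varieties dominated by products.** -/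
theorem iitaka_prod [Algebra.EssFiniteType ℂ K] (m : Fin k → ℕ)
    (F : Fin (k + 1) → IntermediateField ℂ K) [∀ i, Algebra.EssFiniteType ℂ (F i)]
    [IsFF ℂ (F (Fin.last k))] (hF : ⨆ i, F i = ⊤)
    (hm : ∀ i : Fin k, Algebra.trdeg ℂ (F i.castSucc) = m i)
    (hK : Algebra.trdeg ℂ K = (∑ i, m i + 1 : ℕ)) (L : Type) [Field L] [Algebra ℂ L]
    [Algebra L K] [IsScalarTower ℂ L K] [FiniteDimensional L K]
    (hX : ∀ i : Fin k, SeparatesPoints (F i.castSucc) (m i)
      (2 * Pool.Agent.N162.GQ.deg F L i.castSucc))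
    (E : IntermediateField ℂ L) [Algebra.EssFiniteType ℂ E] {d f : ℕ}
    (hd : Algebra.trdeg ℂ E = d) (hf : Algebra.trdeg E L = f) :
    (KappaGe ℂ E d 0 → IsPseudoEffective E L f → KappaGe ℂ L (∑ i, m i + 1) (∑ i, m i)) ∧
    ∀ p q : ℕ, KappaGe ℂ E d p → KappaGe E L f q → KappaGe ℂ L (∑ i, m i + 1) (p + q) := by
  choose x D hx hD using fun i : Fin k => Pool.Agent.Y172.exists_crd (hm i)
  have h := multi_all (L := L) hF hm hK hx
    (g := fun i => 2 * Pool.Agent.N162.GQ.deg F L i.castSucc + 1)
    (fun i => sepX_of' (hx i) (hD i) fun Ω _ _ _ A hA c hc =>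
      hX i (D i) (dual_indep (hD i)) Ω A hA c hc)
    (fun i => by
      rw [Pool.Agent.N162.GQ.deg_eq]
      exact Nat.lt_succ_self _)
  have hL : Algebra.trdeg ℂ L = (∑ i, m i + 1 : ℕ) := Pool.Agent.Y184.NT.trdeg_below (K := K) hK
  have hessL : Algebra.EssFiniteType ℂ L := Pool.Agent.TH466.QG.ess_below (K := K)
  exact iitaka_of hL (fun h1 => (h.1.out 2 1).1 h1)
    (fun h1 => by
      by_contra h2
      exact h1 ((h.2.1.out 2 0).1 h2)) E hd hf

end

end Pool.Agent.L0h18.EF
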