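import Pool.Agent.L0h18.EF.Ratio
import Pool.Agent.R882.HTF

/-!
Fibrations whose total space is covered by curves of genus at most one: the Kodaira dimensions of
the base and of the generic fibre.
-/

set_option autoImplicit false
set_option linter.overlappingInstances false
set_option linter.unusedSectionVars false
set_option linter.unusedVariables false
set_option maxHeartbeats 4000000
set_option synthInstance.maxHeartbeats 400000

open FF IntermediateField Module

namespace Pool.Agent.L0h18.EF

open Pool.Agent.W603.LV Pool.Agent.W619.PQ Pool.Agent.N145.SX Pool.Agent.N145.PC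
open Pool.Agent.W602.GT (Divisorial RegAt IsPluri DerReg KodGe Psef GeneralType)
open Pool.Agent.R882.UA (kod_le_dim kod_mono fib_not)

/-- algebraically independent ratios which are constant along the curves -/
theorem indep_down {k E Λ Ξ : Type} [Field k] [Field E] [Field Λ] [Field Ξ]
    [Algebra k E] [Algebra k Λ] [Algebra k Ξ] [Algebra Λ Ξ] [Algebra E Ξ] [IsScalarTower k Λ Ξ]
    [IsScalarTower k E Ξ] {h : ℕ} {r : Fin h → E} (hr : AlgebraicIndependent k r)
    {c : Fin h → Λ} (hc : ∀ i, algebraMap Λ Ξ (c i) = algebraMap E Ξ (r i)) :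
    AlgebraicIndependent k c := by
  have h1 : AlgebraicIndependent k fun i => algebraMap E Ξ (r i) :=
    hr.map' (f := IsScalarTower.toAlgHom k E Ξ) (algebraMap E Ξ).injective
  have h2 : (fun i => algebraMap E Ξ (r i)) = fun i => (IsScalarTower.toAlgHom k Λ Ξ) (c i) := by
    funext i
    exact (hc i).symm
  rw [h2] at h1
  exact AlgebraicIndependent.of_comp (IsScalarTower.toAlgHom k Λ Ξ) h1

/-- **Fibrations of varieties covered by curves of genus at most one.** Let `W`, of dimension
`n + 1`, be covered by rational or elliptic curves. Then `κ(B) + κ(F) ≤ n` for all fibrations of `W`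
with base `B` and generic fibre `F`. -/
theorem add_le_of_cov {L : Type} [Field L] [Algebra ℂ L] [Algebra.EssFiniteType ℂ L]
    {n d f p q : ℕ} (hL : Algebra.trdeg ℂ L = (n + 1 : ℕ)) (hcov : Cov1 L n)
    (E : IntermediateField ℂ L) [Algebra.EssFiniteType ℂ E] (hd : Algebra.trdeg ℂ E = d)
    (hf : Algebra.trdeg E L = f) (hp : KodGe ℂ E d (fun _ => False) p)
    (hq : KodGe E L f (fun _ => False) q) : p + q ≤ n := by
  classical
  have hdf : d + f = n + 1 := by
    have h3 := trdeg_add_eq ℂ E (A := L)
    rw [hd, hf, hL] at h3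
    exact_mod_cast h3
  have hp' : p ≤ d := kod_le_dim hd hp
  have hq' : q ≤ f := kod_le_dim hf hq
  obtain ⟨Λ, F, _, _, _, _, _, _, _, _, hΛ, hglo, ⟨φ⟩⟩ := hcov
  let _ : Algebra L F := φ.toRingHom.toAlgebra
  have hT : IsScalarTower ℂ L F := IsScalarTower.of_algebraMap_eq fun c => (φ.commutes c).symm
  by_cases hcase : ∃ z : E, ∀ c : Λ, algebraMap Λ F c ≠ algebraMap L F (z : L)
  · -- the curves are not contracted by the fibration
    have hEF : IsScalarTower ℂ E F := IsScalarTower.of_algebraMap_eq fun c => by
      rw [IsScalarTower.algebraMap_apply ℂ L F]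
      rfl
    obtain ⟨w, hw, ω, hω, D, hD, hind⟩ := hp
    have hrat : ∀ j, ∃ c : Λ, algebraMap Λ F c = algebraMap E F (ω j D / ω 0 D) := fun j =>
      ratio_mem (k := ℂ) hd hΛ hglo hw (hω j).1 (hω 0).1
        (fun P hP => (hω j).2.2 P hP (fun h => h)) (fun P hP => (hω 0).2.2 P hP (fun h => h))
        hcase hD
    choose c hc using hrat
    by_contra hcon
    have hpd : p = d := by omega
    subst hpd
    -- the ratios are a transcendence basis of the base
    have hb : IsTranscendenceBasis ℂ (fun i : Fin p => ω i.succ D / ω 0 D) := by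
      refine hind.isTranscendenceBasis_of_lift_trdeg_le_of_finite ?_
      rw [hd]
      simp
    obtain ⟨z, hz⟩ := hcase
    have halg : IsAlgebraic (IntermediateField.adjoin ℂ
        (Set.range fun i : Fin p => ω i.succ D / ω 0 D)) z :=
      hb.isAlgebraic_field.isAlgebraic z
    -- the field generated by the ratios is contained in the constants
    let A : IntermediateField ℂ E :=
      { carrier := {y | ∃ c : Λ, algebraMap Λ F c = algebraMap E F y}
        mul_mem' := by
          rintro a b ⟨c1, h1⟩ ⟨c2, h2⟩
          exact ⟨c1 * c2, by rw [map_mul, map_mul, h1, h2]⟩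
        one_mem' := ⟨1, by rw [map_one, map_one]⟩
        add_mem' := by
          rintro a b ⟨c1, h1⟩ ⟨c2, h2⟩
          exact ⟨c1 + c2, by rw [map_add, map_add, h1, h2]⟩
        zero_mem' := ⟨0, by rw [map_zero, map_zero]⟩
        algebraMap_mem' := fun r => ⟨algebraMap ℂ Λ r, by
          rw [← IsScalarTower.algebraMap_apply, ← IsScalarTower.algebraMap_apply]⟩
        inv_mem' := by
          rintro a ⟨c1, h1⟩
          exact ⟨c1⁻¹, by rw [map_inv₀, map_inv₀, h1]⟩ }
    have hle : IntermediateField.adjoin ℂ (Set.range fun i : Fin p => ω i.succ D / ω 0 D) ≤ A := by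
      rw [IntermediateField.adjoin_le_iff]
      rintro _ ⟨i, rfl⟩
      exact ⟨c i.succ, hc i.succ⟩
    choose g hg using fun y : A => y.2
    let gh : A →+* Λ :=
      { toFun := g
        map_one' := (algebraMap Λ F).injective (by rw [hg, map_one]; exact map_one _)
        map_mul' := fun a b => (algebraMap Λ F).injective (by
          rw [hg, map_mul, hg, hg]; exact map_mul _ _ _)
        map_zero' := (algebraMap Λ F).injective (by rw [hg, map_zero]; exact map_zero _)
        map_add' := fun a b => (algebraMap Λ F).injective (by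
          rw [hg, map_add, hg, hg]; exact map_add _ _ _) }
    have h1 : IsAlgebraic Λ (algebraMap E F z) := by
      obtain ⟨P, hP0, hP⟩ := halg
      let ι : IntermediateField.adjoin ℂ (Set.range fun i : Fin p => ω i.succ D / ω 0 D) →+* Λ :=
        gh.comp (IntermediateField.inclusion hle).toRingHom
      refine ⟨P.map ι, (Polynomial.map_ne_zero_iff ι.injective).2 hP0, ?_⟩
      rw [Polynomial.aeval_def, Polynomial.eval₂_map]
      have h4 : (algebraMap Λ F).comp ι = (algebraMap E F).comp (algebraMap
          (IntermediateField.adjoin ℂ (Set.range fun i : Fin p => ω i.succ D / ω 0 D)) E) := by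
        ext y
        exact hg (IntermediateField.inclusion hle y)
      rw [h4, ← Polynomial.hom_eval₂]
      rw [Polynomial.aeval_def] at hP
      rw [hP, map_zero]
    have h2 := IsAlgClosed.degree_eq_one_of_irreducible Λ (minpoly.irreducible h1.isIntegral)
    obtain ⟨c', hc'⟩ := minpoly.mem_range_of_degree_eq_one Λ (algebraMap E F z) h2
    exact hz c' hc'
  · -- the curves are contracted
    push Not at hcase
    choose g hg using hcase
    let gh : E →+* Λ :=
      { toFun := g
        map_one' := (algebraMap Λ F).injective (by rw [hg, map_one]; exact map_one _)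
        map_mul' := fun a b => (algebraMap Λ F).injective (by
          rw [hg, map_mul, hg, hg]; exact map_mul _ _ _)
        map_zero' := (algebraMap Λ F).injective (by rw [hg, map_zero]; exact map_zero _)
        map_add' := fun a b => (algebraMap Λ F).injective (by
          rw [hg, map_add, hg, hg]; exact map_add _ _ _) }
    let i1 : Algebra E Λ := gh.toAlgebra
    have t1 : IsScalarTower E L F := IsScalarTower.of_algebraMap_eq fun c => rfl
    have t2 : IsScalarTower E Λ F := IsScalarTower.of_algebraMap_eq fun c => (hg c).symm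
    have t3 : IsScalarTower ℂ E Λ := IsScalarTower.of_algebraMap_eq fun c => by
      apply (algebraMap Λ F).injective
      rw [← IsScalarTower.algebraMap_apply ℂ Λ F, IsScalarTower.algebraMap_apply ℂ L F]
      exact (hg (algebraMap ℂ E c)).symm
    have hE0 : CharZero E := charZero_of_injective_algebraMap (algebraMap ℂ E).injective
    have hessE : Algebra.EssFiniteType E L := Algebra.EssFiniteType.of_comp ℂ E L
    obtain ⟨N, hN, hdN⟩ : ∃ N : ℕ, Algebra.trdeg E Λ = N ∧ d + N = n := by
      have h1 := trdeg_add_eq ℂ E (A := Λ)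
      rw [hd, hΛ] at h1
      have h2 : Algebra.trdeg E Λ < Cardinal.aleph0 := by
        refine lt_of_le_of_lt ?_ (Cardinal.natCast_lt_aleph0 (n := n))
        rw [← h1]
        exact le_add_left le_rfl
      obtain ⟨N, hN⟩ := Cardinal.lt_aleph0.1 h2
      refine ⟨N, hN, ?_⟩
      rw [hN] at h1
      exact_mod_cast h1
    have hne : ∃ z : L, ∀ c : Λ, algebraMap Λ F c ≠ algebraMap L F z := by
      by_contra hcon
      push Not at hcon
      choose g' hg' using hcon
      obtain ⟨b, hb⟩ := Pool.Agent.W602.GT.basis_of_trdeg hL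
      have h1 := indep_down (k := ℂ) (Ξ := F) hb.1 (c := fun i => g' (b i)) fun i => hg' (b i)
      have h2 := h1.cardinalMk_le_trdeg
      rw [hΛ] at h2
      simp only [Cardinal.mk_fin] at h2
      have h3 : n + 1 ≤ n := by exact_mod_cast h2
      omega
    obtain ⟨w, hw, ω, hω, D, hD, hind⟩ := hq
    have hrat : ∀ j, ∃ c : Λ, algebraMap Λ F c = algebraMap L F (ω j D / ω 0 D) := fun j =>
      ratio_mem (k := E) hf hN hglo hw (hω j).1 (hω 0).1
        (fun P hP => (hω j).2.2 P hP (fun h => h)) (fun P hP => (hω 0).2.2 P hP (fun h => h))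
        hne hD
    choose c hc using hrat
    have h1 := indep_down (k := E) (Ξ := F) hind (c := fun i => c i.succ) fun i => hc i.succ
    have h2 := h1.cardinalMk_le_trdeg
    rw [hN] at h2
    simp only [Cardinal.mk_fin] at h2
    have h3 : q ≤ N := by exact_mod_cast h2
    omega

/-- **Iitaka's inequality** if the total space is uniruled, or of general type, or covered by curves
of genus at most one and of Kodaira dimension at least `dim - 1`. -/
theorem iitaka_of {L : Type} [Field L] [Algebra ℂ L] [Algebra.EssFiniteType ℂ L]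
    {n : ℕ} (hL : Algebra.trdeg ℂ L = (n + 1 : ℕ))
    (h1 : ¬ IsUniruled ℂ L (n + 1) → KodGe ℂ L (n + 1) (fun _ => False) n)
    (h2 : ¬ KodGe ℂ L (n + 1) (fun _ => False) (n + 1) → Cov1 L n)
    (E : IntermediateField ℂ L) [Algebra.EssFiniteType ℂ E] {d f : ℕ}
    (hd : Algebra.trdeg ℂ E = d) (hf : Algebra.trdeg E L = f) :
    (KodGe ℂ E d (fun _ => False) 0 → Psef E L f (fun _ => False) →
      KodGe ℂ L (n + 1) (fun _ => False) n) ∧
    ∀ p q : ℕ, KodGe ℂ E d (fun _ => False) p → KodGe E L f (fun _ => False) q →
      KodGe ℂ L (n + 1) (fun _ => False) (p + q) := by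
  have h3 : KodGe ℂ E d (fun _ => False) 0 → Psef E L f (fun _ => False) →
      KodGe ℂ L (n + 1) (fun _ => False) n := by
    intro h3 h4
    refine h1 fun h5 => ?_
    exact fib_not hL h5 E hd hf h3 h4
  refine ⟨h3, fun p q hp hq => ?_⟩
  have hdf : d + f = n + 1 := by
    have h3 := trdeg_add_eq ℂ E (A := L)
    rw [hd, hf, hL] at h3
    exact_mod_cast h3
  have hp' : p ≤ d := kod_le_dim hd hp
  have hq' : q ≤ f := kod_le_dim hf hq
  by_cases hgt : KodGe ℂ L (n + 1) (fun _ => False) (n + 1)
  · exact kod_mono hgt (by omega)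
  · have h5 := add_le_of_cov hL (h2 hgt) E hd hf hp hq
    exact kod_mono (h3 (kod_mono hp (Nat.zero_le _))
      (Pool.Agent.W602.GT.psef_of_kodGe (kod_mono hq (Nat.zero_le _)))) h5

end Pool.Agent.L0h18.EF
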