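import Pool.Agent.L0h18.EF.Core

/-!
Ratios of the pluricanonical forms of the base (or of the generic fibre) of a fibration are constant
along curves of genus at most one which are not contracted.
-/

set_option autoImplicit false
set_option linter.overlappingInstances false
set_option linter.unusedSectionVars false
set_option linter.unusedVariables false
set_option maxHeartbeats 4000000
set_option synthInstance.maxHeartbeats 400000

open FF IntermediateField Module

namespace Pool.Agent.L0h18.EF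

open Pool.Agent.W603.LV Pool.Agent.W619.PQ Pool.Agent.N145.SX Pool.Agent.N145.PC
open Pool.Agent.W602.GT (Divisorial RegAt IsPluri DerReg KodGe)

/-- the basis of the fibre and of the constants -/
theorem basis_cons {k Λ Ξ : Type} [Field k] [Field Λ] [Field Ξ] [Algebra k Λ] [Algebra k Ξ]
    [Algebra Λ Ξ] [IsScalarTower k Λ Ξ] [CharZero Λ] [IsFF Λ Ξ] {N : ℕ} {u : Fin N → Λ}
    (hu : IsTranscendenceBasis k u) {s : Ξ} (hs : Transcendental Λ s) :
    IsTranscendenceBasis k (Fin.cons s (fun i => algebraMap Λ Ξ (u i)) : Fin (N + 1) → Ξ) := by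
  have hb : IsTranscendenceBasis Λ (fun _ : Fin 1 => s) := by
    have h1 : AlgebraicIndependent Λ (fun _ : Fin 1 => s) :=
      (algebraicIndependent_unique_type_iff).2 hs
    refine h1.isTranscendenceBasis_iff_isAlgebraic.2 ?_
    have h2 := IsFF.isAlgebraic hs
    refine alg_adjoin fun z => ?_
    have h3 : Set.range (fun _ : Fin 1 => s) = {s} := by
      ext y
      simp [eq_comm]
    rw [h3]
    exact h2.isAlgebraic z
  have h1 := hu.sumElim_comp hb
  let e : Fin (N + 1) ≃ Fin 1 ⊕ Fin N :=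
    { toFun := Fin.cons (Sum.inl 0) Sum.inr
      invFun := Sum.elim (fun _ => 0) Fin.succ
      left_inv := by
        intro i
        refine Fin.cases rfl (fun i => ?_) i
        simp
      right_inv := by
        rintro (i | i)
        · simp [Subsingleton.elim i 0]
        · simp }
  refine (isTranscendenceBasis_equiv' e ?_).2 h1
  funext i
  refine Fin.cases rfl (fun i => ?_) i
  simp [e]

/-- constants of a derivation of a function field of one variable -/
theorem mem_of_der {Λ Ξ : Type} [Field Λ] [Field Ξ] [Algebra Λ Ξ] [CharZero Λ] [IsAlgClosed Λ]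
    [IsFF Λ Ξ] {D : Derivation Λ Ξ Ξ} (hD : D ≠ 0) {z : Ξ} (hz : D z = 0) :
    ∃ c : Λ, algebraMap Λ Ξ c = z := by
  by_contra hcon
  have ht : Transcendental Λ z := by
    intro halg
    apply hcon
    have h2 := IsAlgClosed.degree_eq_one_of_irreducible Λ (minpoly.irreducible halg.isIntegral)
    exact minpoly.mem_range_of_degree_eq_one Λ z h2
  obtain ⟨D1, hD1⟩ := exists_D (k := Λ) ht
  have hD10 : D1 ≠ 0 := by
    rintro rfl
    simp at hD1
  obtain ⟨u, hu⟩ := der_smul (D' := D) hD10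
  apply hD
  have h1 : u = 0 := by
    have h2 : D z = u * D1 z := by
      rw [hu]
      rfl
    rw [hz, hD1, mul_one] at h2
    exact h2.symm
  rw [hu, h1, zero_smul]

/-- **Ratios of pluricanonical forms.** The ratios of the regular pluricanonical forms of the
variety with the function field `E` are constant along a covering family of curves of genus at most
one which are not contracted. -/
theorem ratio_mem {k E Λ Ξ : Type} [Field k] [CharZero k] [Field E] [Field Λ] [Field Ξ]
    [Algebra k E] [Algebra k Λ] [Algebra k Ξ] [Algebra Λ Ξ] [Algebra E Ξ] [IsScalarTower k Λ Ξ]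
    [IsScalarTower k E Ξ] [Algebra.EssFiniteType k E] [IsAlgClosed Λ] [IsFF Λ Ξ] {m N w : ℕ}
    (hm : Algebra.trdeg k E = m) (hN : Algebra.trdeg k Λ = N) (hglo : GLO Λ Ξ) (hw : 0 < w)
    {ω₁ ω₂ : (Fin m → Derivation k E E) → E} (h1 : IsPluri w ω₁) (h2 : IsPluri w ω₂)
    (hr1 : ∀ P : Place k E, Divisorial m P → RegAt P ω₁)
    (hr2 : ∀ P : Place k E, Divisorial m P → RegAt P ω₂)
    (hne : ∃ z : E, ∀ c : Λ, algebraMap Λ Ξ c ≠ algebraMap E Ξ z)
    {D : Fin m → Derivation k E E} (hD : ω₂ D ≠ 0) :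
    ∃ c : Λ, algebraMap Λ Ξ c = algebraMap E Ξ (ω₁ D / ω₂ D) := by
  classical
  have hch : CharZero Λ := charZero_of_injective_algebraMap (algebraMap k Λ).injective
  obtain ⟨x, D0, hx, hdual⟩ := Pool.Agent.Y944.NT.exists_crd (k := k) (K := E) hm
  obtain ⟨s, hs⟩ := IsFF.exists_transcendental (k := Λ) (K := Ξ)
  obtain ⟨Ds, hDs⟩ := exists_D (k := Λ) hs
  have hDs0 : Ds ≠ 0 := by
    rintro rfl
    simp at hDs
  -- the frame
  obtain ⟨u, Eu, hu, hEu⟩ := Pool.Agent.Y944.NT.exists_crd (k := k) (K := Λ) hN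
  obtain ⟨T, hTd⟩ : ∃ T : Fin (N + 1) → Ξ, T = Fin.cons s (fun i => algebraMap Λ Ξ (u i)) :=
    ⟨_, rfl⟩
  have hT : IsTranscendenceBasis k T := by
    rw [hTd]
    exact basis_cons hu hs
  choose δ hδ using fun i : Fin (N + 1) =>
    Pool.Agent.W602.GT.exists_der T hT fun j => if i = j then 1 else 0
  have ha : ∀ y, δ 0 y = Ds y := by
    have h1 : δ 0 = Ds.restrictScalars k := Pool.Agent.Y888.NT.der_ext' T hT fun j => by
      rw [hδ]
      refine Fin.cases ?_ (fun j => ?_) j
      · rw [if_pos rfl, hTd, Fin.cons_zero]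
        exact hDs.symm
      · rw [if_neg (Fin.succ_ne_zero j).symm, hTd, Fin.cons_succ]
        exact (Derivation.map_algebraMap Ds (u j)).symm
    intro y
    rw [h1]
    rfl
  have hb : ∀ (l : Fin (N + 1)) (c : Λ), ∃ c' : Λ, δ l (algebraMap Λ Ξ c) = algebraMap Λ Ξ c' := by
    intro l
    refine Fin.cases (fun c => ⟨0, ?_⟩) (fun l c => ⟨Eu l c, ?_⟩) l
    · rw [ha, Derivation.map_algebraMap, map_zero]
    · have h1 : (δ l.succ).compAlgebraMap Λ = (Algebra.linearMap Λ Ξ).compDer (Eu l) :=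
        Pool.Agent.Y888.NT.der_ext' u hu fun j => by
          change δ l.succ (algebraMap Λ Ξ (u j)) = algebraMap Λ Ξ (Eu l (u j))
          have h2 := hδ l.succ j.succ
          rw [hTd, Fin.cons_succ] at h2
          rw [h2, hEu]
          by_cases h : l = j
          · rw [if_pos h, if_pos (by rw [h]), map_one]
          · rw [if_neg h, if_neg (fun h' => h (Fin.succ_injective _ h')), map_zero]
      exact DFunLike.congr_fun h1 c
  have hφy : AlgebraicIndependent k (fun j => algebraMap E Ξ (x j)) :=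
    hx.1.map' (f := IsScalarTower.toAlgHom k E Ξ) (algebraMap E Ξ).injective
  -- the rows
  obtain ⟨G, hG⟩ : ∃ G : Fin (N + 1) → Fin m → Ξ, G = fun l j => δ l (algebraMap E Ξ (x j)) :=
    ⟨_, rfl⟩
  have hG0 : G 0 ≠ 0 := by
    intro h0
    obtain ⟨z, hz⟩ := hne
    have h3 : ∀ y : E, Ds (algebraMap E Ξ y) = 0 := by
      intro y
      have h4 : (δ 0).compAlgebraMap E = (0 : Derivation k E Ξ) :=
        Pool.Agent.Y888.NT.der_ext' x hx fun j => by
          have h5 := congrFun h0 j
          rw [hG] at h5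
          exact h5
      rw [← ha]
      exact DFunLike.congr_fun h4 y
    obtain ⟨c, hc⟩ := mem_of_der hDs0 (h3 z)
    exact hz c hc
  have hspan : Submodule.span Ξ (Set.range G) = ⊤ := by
    rw [eq_top_iff, ← (Pi.basisFun Ξ (Fin m)).span_eq, Submodule.span_le]
    rintro _ ⟨j, rfl⟩
    obtain ⟨Dy, hDy⟩ := Pool.Agent.Y944.NT.exists_der_indep hφy j
    have h1 : (Pi.basisFun Ξ (Fin m)) j = ∑ l, Dy (T l) • G l := by
      funext i
      rw [Finset.sum_apply, Pi.basisFun_apply]
      have h2 : Dy (algebraMap E Ξ (x i)) = ∑ l, Dy (T l) * δ l (algebraMap E Ξ (x i)) := by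
        have h1 := Pool.Agent.Y944.NT.der_expand hT hδ Dy
        conv_lhs => rw [h1]
        have h3 : (∑ l, Dy (T l) • δ l) (algebraMap E Ξ (x i)) =
            ∑ l, (Dy (T l) • δ l) (algebraMap E Ξ (x i)) :=
          congrFun (map_sum Derivation.coeFnAddMonoidHom (fun l => Dy (T l) • δ l) Finset.univ
            |>.trans rfl) (algebraMap E Ξ (x i)) |>.trans (Finset.sum_apply _ _ _)
        rw [h3]
        rfl
      change (Pi.single j (1 : Ξ) : Fin m → Ξ) i = ∑ l, Dy (T l) * G l i
      rw [hG, ← h2, hDy, Pi.single_apply]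
      by_cases hij : i = j
      · rw [if_pos hij, if_pos hij.symm]
      · rw [if_neg hij, if_neg (Ne.symm hij)]
    rw [h1]
    exact Submodule.sum_mem _ fun l _ => Submodule.smul_mem _ _
      (Submodule.subset_span ⟨l, rfl⟩)
  obtain ⟨σ, j0, hσ0, hσ1, hdet⟩ := Pool.Agent.R882.UA.exists_rows G hspan hG0
  obtain ⟨mm, hmm⟩ : ∃ mm : Matrix (Fin m) (Fin m) Ξ,
    mm = Matrix.of fun i j => δ (σ i) (algebraMap E Ξ (x j)) := ⟨_, rfl⟩
  have hdet' : mm.det ≠ 0 := by
    rw [hG] at hdet
    rw [hmm]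
    exact hdet
  have hcan1 : ∀ Q : Place Λ Ξ, Ge Q (w * vo Q Ds) (mm.det ^ w * algebraMap E Ξ (ω₁ D0)) := by
    intro Q
    rw [hmm]
    exact core_pluri hm hN hx hdual h1 hr1 Ds hDs (fun i => δ (σ i)) j0
      (fun z => by rw [hσ0, ha]) (fun i c => hb (σ i) c) Q
  have hcan2 : ∀ Q : Place Λ Ξ, Ge Q (w * vo Q Ds) (mm.det ^ w * algebraMap E Ξ (ω₂ D0)) := by
    intro Q
    rw [hmm]
    exact core_pluri hm hN hx hdual h2 hr2 Ds hDs (fun i => δ (σ i)) j0
      (fun z => by rw [hσ0, ha]) (fun i c => hb (σ i) c) Q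
  -- the values on the frame
  have hval : ∀ ω : (Fin m → Derivation k E E) → E, IsPluri w ω → ω D =
      (Matrix.of fun a b => D a (x b) : Matrix (Fin m) (Fin m) E).det ^ w * ω D0 := by
    intro ω hω
    have h1 := hω (Matrix.of fun a b => D a (x b)) D0
    rw [← h1]
    congr 1
    funext a
    exact (Pool.Agent.W73.PG.PULL.expand x hx D0 hdual (D a)).symm
  obtain ⟨e, he⟩ : ∃ e, e = (Matrix.of fun a b => D a (x b) : Matrix (Fin m) (Fin m) E).det ^ w :=
    ⟨_, rfl⟩
  have hv1 := hval ω₁ h1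
  have hv2 := hval ω₂ h2
  rw [← he] at hv1 hv2
  have he0 : e ≠ 0 := by
    intro h
    rw [hv2, h, zero_mul] at hD
    exact hD rfl
  have hω0 : ω₂ D0 ≠ 0 := by
    intro h0
    rw [hv2, h0, mul_zero] at hD
    exact hD rfl
  obtain ⟨a, b, hab, h3⟩ := pluri_of_glo hglo hDs0 hw hcan1 hcan2
  have h4 : algebraMap Λ Ξ a * algebraMap E Ξ (ω₁ D0) =
      algebraMap Λ Ξ b * algebraMap E Ξ (ω₂ D0) := by
    apply mul_left_cancel₀ (pow_ne_zero w hdet')
    linear_combination h3
  have h0' : algebraMap E Ξ (ω₂ D0) ≠ 0 := by simpa using hω0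
  have ha0 : a ≠ 0 := by
    rintro rfl
    rw [map_zero, zero_mul] at h4
    rcases mul_eq_zero.1 h4.symm with h3 | h3
    · rcases hab with h4 | h4
      · exact h4 rfl
      · exact h4 (by simpa using h3)
    · exact h0' h3
  have ha1 : algebraMap Λ Ξ a ≠ 0 := by simpa using ha0
  refine ⟨b / a, ?_⟩
  rw [hv1, hv2, mul_div_mul_left _ _ he0, map_div₀, map_div₀, div_eq_div_iff ha1 h0']
  linear_combination -h4

end Pool.Agent.L0h18.EF
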